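import Pool.Agent.H348R6.GM3
import Pool.Agent.H995R3.Split
import Pool.Agent.H995R3.Boards.Final

/-!
# The set-splitting game on uncountable sets of arbitrary size

* In ZFC, A has no winning strategy in `G(E)` if `E` is uncountable, and B has none if moreover
  `E` has size at most the continuum.
* If some set `E₀` carries an ideal as in Laver's theorem (nowhere prime, with a dense family of
  positive sets such that decreasing sequences of its members have positive intersections), then
  B wins `G(E)` for all `E` with `|E₀| ≤ |E|`.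
* If B wins `G(E)`, then for every payoff set `S ⊆ {0,1}^ω` the multiboard game `GS_2(S, E)` is
  determined. On the other hand, adding `κ` Cohen reals (`κ ^ ℵ₀ = κ > ℵ₀`) forces that there is
  a payoff set `S` such that `GS_2(S, K)` is undetermined for all nonempty `K`. So in the Cohen
  extension B wins no game `G(E)`, and `G(E)` is undetermined for all uncountable `E`.
-/

set_option autoImplicit false

namespace Pool.Agent.Results.MP_c086f7_lc.AllCardinals

open Cardinal Pool.Agent.Helper669.Forcing Pool.Agent.H458R4.Cohen Pool.Agent.H995R3.Boards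
open Pool.Agent.H348R6.GM Pool.Agent.H995R3.Split

universe u

theorem result :
    (∀ E : Type u, Uncountable E → ¬ AWins E) ∧
    (∀ E : Type u, Uncountable E → #E ≤ 𝔠 → ¬ BWins E) ∧
    (∀ (E₀ E : Type u) (J D : Set (Set E₀)), LaverIdeal J D → #E₀ ≤ #E → BWins E) ∧
    (∀ E : Type u, BWins E → ∀ S : Set (ℕ → Bool), MOneWins E S ∨ MTwoWins E S) ∧
    (∀ κ : Cardinal.{0}, ℵ₀ < κ → κ ^ ℵ₀ = κ →
      ∃ S : SetName (Fn κ.out) ℕ Bool, ∀ (p : Fn κ.out) (K : Type u), Nonempty K →
        p ∈ Undetermined K S) := by
  refine ⟨fun E _ => not_AWins E, fun E _ hE => not_BWins hE, fun E₀ E J D h hE => ?_,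
    fun E h S => determined_of_BWins h S, fun κ hκ hpow => ?_⟩
  · obtain ⟨i⟩ := (Cardinal.le_def _ _).1 hE
    exact BWins_of_LaverIdeal (h.map i)
  · exact exists_payoff hκ hpow Bool.false_ne_true

end Pool.Agent.Results.MP_c086f7_lc.AllCardinals
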