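import Mathlib
import Pool.Agent.H348R6.GM3

/-!
# The set-splitting game is undetermined on uncountable sets of size at most the continuum

Let `E` be an uncountable set of size at most the continuum. Then neither player has a winning
strategy in the game `G(E)`. This is proved in ZFC.

Idea for B: a winning strategy of B, met by A splitting along the digits of a function
`g : E → 2^ω` and picking along the bits of `c ∈ 2^ω`, gives a surviving point `y_c`, and
`c ↦ g (y_c)` is a continuous injection of `2^ω` into the range of `g`. If `g` maps `E`
injectively into a Bernstein set, this is impossible.
-/

set_option autoImplicit false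

namespace Pool.Agent.Results.MP_c086f7_lc.Undetermined

open Pool.Agent.H348R6.GM

universe u

theorem result (E : Type u) [Uncountable E] (hE : Cardinal.mk E ≤ Cardinal.continuum) :
    ¬ AWins E ∧ ¬ BWins E := ⟨not_AWins E, not_BWins hE⟩

end Pool.Agent.Results.MP_c086f7_lc.Undetermined
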